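import Pool.Agent.L7h57.RV.Stm2

/-!
# Project RV, part OPEN
-/

set_option autoImplicit false

namespace Pool.Agent.L7h66.RV

open Filter Topology Pool.Agent.L7h57.RV

theorem open_map (N M : ℕ) (L : (Fin N → ℂ) →ₗ[ℂ] (Fin M → ℂ))
    (Q : (Fin N → ℂ) →ₗ[ℂ] (Fin N → ℂ) →ₗ[ℂ] (Fin M → ℂ)) (hL : Function.Surjective L)
    (ε : ℝ) (hε : 0 < ε) (z : Fin M → ℂ) :
    ∃ c : ℂ, c ≠ 0 ∧ ∃ x : Fin N → ℂ, ‖x‖ < ε ∧ L x + Q x x = c • z := by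
  set Lc : (Fin N → ℂ) →L[ℂ] (Fin M → ℂ) := LinearMap.toContinuousLinearMap L with hLc
  set Q1 : (Fin N → ℂ) →ₗ[ℂ] ((Fin N → ℂ) →L[ℂ] (Fin M → ℂ)) :=
    (LinearMap.toContinuousLinearMap : ((Fin N → ℂ) →ₗ[ℂ] (Fin M → ℂ)) ≃ₗ[ℂ]
      ((Fin N → ℂ) →L[ℂ] (Fin M → ℂ))).toLinearMap.comp Q with hQ1
  set Qc : (Fin N → ℂ) →L[ℂ] ((Fin N → ℂ) →L[ℂ] (Fin M → ℂ)) :=
    LinearMap.toContinuousLinearMap Q1 with hQc
  have h1 : HasStrictFDerivAt (fun x : Fin N → ℂ => Lc x) Lc 0 := Lc.hasStrictFDerivAt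
  have h2 : HasStrictFDerivAt (fun x : Fin N → ℂ => (Qc x) x)
      ((Qc 0).comp (ContinuousLinearMap.id ℂ (Fin N → ℂ)) + Qc.flip 0) 0 :=
    Qc.hasStrictFDerivAt.clm_apply (hasStrictFDerivAt_id 0)
  have h3 := h1.add h2
  have e : Lc + ((Qc 0).comp (ContinuousLinearMap.id ℂ (Fin N → ℂ)) + Qc.flip 0) = Lc := by
    rw [map_zero, map_zero, ContinuousLinearMap.zero_comp, add_zero, add_zero]
  rw [e] at h3
  have hsurj : Lc.range = ⊤ := LinearMap.range_eq_top.2 hL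
  have h4 := h3.map_nhds_eq_of_surj hsurj
  have h5 : (fun x : Fin N → ℂ => Lc x + (Qc x) x) 0 = 0 := by
    show Lc 0 + (Qc 0) 0 = 0
    rw [map_zero, map_zero, add_zero]
  have h6 : (fun x : Fin N → ℂ => Lc x + (Qc x) x) '' Metric.ball 0 ε ∈ 𝓝 (0 : Fin M → ℂ) := by
    rw [← h5]
    refine Filter.mem_of_superset (h4 ▸ Filter.image_mem_map (Metric.ball_mem_nhds _ hε)) ?_
    exact subset_rfl
  have h7 : Tendsto (fun c : ℂ => c • z) (𝓝 0) (𝓝 0) := by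
    have : Continuous fun c : ℂ => c • z := by fun_prop
    have h := this.tendsto 0
    rwa [zero_smul] at h
  have h8 : ∀ᶠ c in 𝓝[≠] (0 : ℂ), c • z ∈
      (fun x : Fin N → ℂ => Lc x + (Qc x) x) '' Metric.ball 0 ε :=
    (h7.mono_left nhdsWithin_le_nhds).eventually h6
  obtain ⟨c, ⟨x, hx, hxc⟩, hc⟩ := (h8.and self_mem_nhdsWithin).exists
  refine ⟨c, hc, x, ?_, hxc⟩
  rwa [mem_ball_zero_iff] at hx

theorem s_OPEN : S_OPEN := fun N M L Q hL ε hε z => open_map N M L Q hL ε hε z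

end Pool.Agent.L7h66.RV
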